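import Pool.Agent.Q234.KT.Stm

/-!
# Project KT (helper234), job KT-MA: the Hamiltonian in terms of flips
-/

set_option autoImplicit false

open scoped BigOperators
open Finset Pool.Agent.TH235.PP

namespace Pool.Agent.Q123.KT

open Pool.Agent.Q234.KT

theorem fin2_add_one (a : Fin 2) : a + 1 ≠ a := by
  revert a
  decide

theorem fin2_ne {a b : Fin 2} (h : a ≠ b) : a = b + 1 := by
  revert a b
  decide

theorem sh_inj {n L : ℕ} (hn : n ≤ L) (u : Site L) : Function.Injective (sh u : Fin n × Fin n → Site L) := by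
  intro x y h
  unfold sh at h
  rw [Prod.mk.injEq, add_right_inj, add_right_inj, ZMod.natCast_eq_natCast_iff', ZMod.natCast_eq_natCast_iff',
    Nat.mod_eq_of_lt (x.1.2.trans_le hn), Nat.mod_eq_of_lt (y.1.2.trans_le hn), Nat.mod_eq_of_lt (x.2.2.trans_le hn),
    Nat.mod_eq_of_lt (y.2.2.trans_le hn)] at h
  exact Prod.ext (Fin.ext h.1) (Fin.ext h.2)

theorem fl_inj {V : Type} [DecidableEq V] {A B : Finset V} {σ : V → Fin 2} (h : fl A σ = fl B σ) : A = B := by
  ext v
  have h1 := congrFun h v
  unfold fl at h1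
  by_cases hA : v ∈ A <;> by_cases hB : v ∈ B
  · simp [hA, hB]
  · rw [if_pos hA, if_neg hB] at h1
    exact absurd h1 (fin2_add_one _)
  · rw [if_neg hA, if_pos hB] at h1
    exact absurd h1.symm (fin2_add_one _)
  · simp [hA, hB]

theorem fl_sh {n L : ℕ} (hn : n ≤ L) (u : Site L) (a : Finset (Fin n × Fin n)) (σ : Site L → Fin 2) :
    (fun x => fl (a.image (sh u)) σ (sh u x)) = fl a (fun x => σ (sh u x)) := by
  funext x
  unfold fl
  have h : sh u x ∈ a.image (sh u) ↔ x ∈ a := by
    rw [mem_image]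
    constructor
    · rintro ⟨y, hy, h⟩
      rw [← sh_inj hn u h]
      exact hy
    · intro h
      exact ⟨x, h, rfl⟩
  by_cases hx : x ∈ a
  · rw [if_pos hx, if_pos (h.2 hx)]
  · rw [if_neg hx, if_neg (fun h' => hx (h.1 h'))]

/-- the term at `u` -/
theorem term_sum {n L : ℕ} [NeZero L] (hn : n ≤ L) (k : BoxOp 2 n) (u : Site L) (F : (Site L → Fin 2) → ℂ)
    (σ : Site L → Fin 2) : ∑ τ, term k u σ τ * F τ =
      ∑ a : Finset (Fin n × Fin n), k (fun x => σ (sh u x)) (fl a fun x => σ (sh u x)) *
        F (fl (a.image (sh u)) σ) := by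
  classical
  have hinj : Function.Injective (fun a : Finset (Fin n × Fin n) => fl (a.image (sh u)) σ) := by
    intro a b h
    exact Finset.image_injective (sh_inj hn u) (fl_inj h)
  have h1 : ∑ a : Finset (Fin n × Fin n), k (fun x => σ (sh u x)) (fl a fun x => σ (sh u x)) *
      F (fl (a.image (sh u)) σ) = ∑ a : Finset (Fin n × Fin n), (fun τ => term k u σ τ * F τ) (fl (a.image (sh u)) σ) := by
    refine Finset.sum_congr rfl fun a _ => ?_
    beta_reduce
    congr 1
    unfold term
    rw [if_pos, fl_sh hn]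
    intro v hv
    unfold fl
    rw [if_neg]
    intro h
    obtain ⟨x, _, hx⟩ := mem_image.1 h
    exact hv x hx
  rw [h1, ← Finset.sum_image (f := fun τ => term k u σ τ * F τ) (s := (univ : Finset (Finset (Fin n × Fin n))))
    (g := fun a => fl (a.image (sh u)) σ) (fun a _ b _ h => hinj h)]
  symm
  refine Finset.sum_subset (Finset.subset_univ _) fun τ _ hτ => ?_
  have h2 : term k u σ τ = 0 := by
    unfold term
    rw [if_neg]
    intro h
    refine hτ ?_
    rw [mem_image]
    refine ⟨univ.filter (fun x => τ (sh u x) ≠ σ (sh u x)), mem_univ _, ?_⟩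
    funext v
    unfold fl
    by_cases hv : ∃ x : Fin n × Fin n, sh u x = v
    · obtain ⟨x, rfl⟩ := hv
      by_cases hx : τ (sh u x) = σ (sh u x)
      · rw [if_neg, hx]
        intro h3
        obtain ⟨y, hy, hy2⟩ := mem_image.1 h3
        rw [mem_filter] at hy
        rw [hy2] at hy
        exact hy.2 hx
      · rw [if_pos]
        · exact (fin2_ne hx).symm
        · exact mem_image.2 ⟨x, mem_filter.2 ⟨mem_univ _, hx⟩, rfl⟩
    · push Not at hv
      rw [if_neg, h v hv]
      intro h3
      obtain ⟨y, _, hy2⟩ := mem_image.1 h3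
      exact hv y hy2
  rw [h2, zero_mul]

/-- the field -/
theorem field_sum {n L : ℕ} [NeZero L] (hn1 : 1 ≤ n) (u : Site L) (F : (Site L → Fin 2) → ℂ)
    (σ : Site L → Fin 2) :
      ∑ a : Finset (Fin n × Fin n), field n (fun x => σ (sh u x)) (fl a fun x => σ (sh u x)) *
        F (fl (a.image (sh u)) σ) = -F (fl {u} σ) := by
  classical
  set z : Fin n × Fin n := (⟨0, hn1⟩, ⟨0, hn1⟩) with hz
  have hz0 : ∀ x : Fin n × Fin n, ((x.1 : ℕ) = 0 ∧ (x.2 : ℕ) = 0) ↔ x = z := by
    intro x
    constructor
    · rintro ⟨h1, h2⟩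
      exact Prod.ext (Fin.ext h1) (Fin.ext h2)
    · rintro rfl
      exact ⟨rfl, rfl⟩
  rw [Finset.sum_eq_single {z}]
  · have h1 : field n (fun x => σ (sh u x)) (fl {z} fun x => σ (sh u x)) = -1 := by
      unfold field
      rw [if_pos]
      intro x
      unfold fl
      by_cases hx : x = z
      · rw [if_pos (mem_singleton.2 hx), if_pos ((hz0 x).2 hx)]
      · rw [if_neg (fun h => hx (mem_singleton.1 h)), if_neg (fun h => hx ((hz0 x).1 h))]
    have h2 : sh u z = u := by
      unfold sh
      simp [hz]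
    rw [h1, image_singleton, h2, neg_one_mul]
  · intro a _ ha
    have h1 : field n (fun x => σ (sh u x)) (fl a fun x => σ (sh u x)) = 0 := by
      unfold field
      rw [if_neg]
      intro h
      refine ha ?_
      ext x
      have h2 := h x
      unfold fl at h2
      rw [mem_singleton, ← hz0 x]
      by_cases hx : x ∈ a <;> by_cases hx0 : (x.1 : ℕ) = 0 ∧ (x.2 : ℕ) = 0
      · simp only [hx, hx0, and_self]
      · rw [if_pos hx, if_neg hx0] at h2
        exact absurd h2 (fin2_add_one _)
      · rw [if_neg hx, if_pos hx0] at h2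
        exact absurd h2.symm (fin2_add_one _)
      · simp only [hx, hx0]
    rw [h1, zero_mul]
  · intro h
    exact absurd (mem_univ _) h

theorem main (hW : WalshS) : MatS := by
  intro n L _ h δ hn1 hnL hδ
  classical
  constructor
  · intro F σ
    have h1 : (ham h L).mulVec F σ = ∑ u : Site L, ∑ τ, term h u σ τ * F τ := by
      unfold ham
      show ∑ τ, (∑ u : Site L, term h u) σ τ * F τ = _
      rw [Finset.sum_comm]
      refine Finset.sum_congr rfl fun τ _ => ?_
      rw [Matrix.sum_apply, Finset.sum_mul]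
    rw [h1]
    have h2 : ∑ j : Site L × Finset (Fin n × Fin n), wj h j σ * F (fl (Aj n j) σ) =
        ∑ u : Site L, ∑ a : Finset (Fin n × Fin n), wj h (u, a) σ * F (fl (Aj n (u, a)) σ) :=
      Fintype.sum_prod_type _
    unfold Hf
    rw [h2, ← Finset.sum_neg_distrib, ← Finset.sum_add_distrib]
    refine Finset.sum_congr rfl fun u _ => ?_
    rw [term_sum hnL, ← field_sum hn1 u F σ, ← Finset.sum_add_distrib]
    refine Finset.sum_congr rfl fun a _ => ?_
    unfold wj Aj
    simp only
    ring
  · intro t ht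
    obtain ⟨_, _, _, _, _, hW6, hW7⟩ := hW (Site L)
    refine ⟨fun j => ?_, fun j => ?_, fun j => ht j.1, fun v => ?_, fun j Y => ?_, fun j Y hY => ?_⟩
    · exact Finset.image_subset_image (Finset.subset_univ _)
    · refine ⟨sh j.1 ((⟨0, hn1⟩, ⟨0, hn1⟩) : Fin n × Fin n), ?_⟩
      exact Finset.mem_image_of_mem _ (mem_univ _)
    · have h1 : (univ.filter fun j : Site L × Finset (Fin n × Fin n) => v ∈ bx n j.1) ⊆
          (univ.image (fun x : Fin n × Fin n => ((v.1 - ((x.1 : ℕ) : ZMod L), v.2 - ((x.2 : ℕ) : ZMod L)) : Site L))) ×ˢ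
            (univ : Finset (Finset (Fin n × Fin n))) := by
        rintro ⟨u, a⟩ hj
        rw [mem_filter] at hj
        obtain ⟨x, _, hx⟩ := mem_image.1 hj.2
        rw [mem_product]
        refine ⟨mem_image.2 ⟨x, mem_univ _, ?_⟩, mem_univ _⟩
        rw [← hx]
        unfold sh
        simp
      refine (Finset.card_le_card h1).trans ?_
      rw [Finset.card_product, Finset.card_univ, Fintype.card_finset, Fintype.card_prod, Fintype.card_fin, ← sq]
      refine Nat.mul_le_mul_right _ (Finset.card_image_le.trans ?_)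
      rw [Finset.card_univ, Fintype.card_prod, Fintype.card_fin, sq]
    · refine hW6 _ δ (fun σ => ?_) Y
      unfold wj
      exact hδ _ _
    · refine hW7 _ _ (fun σ τ hστ => ?_) Y hY
      have h1 : (fun x => σ (sh j.1 x)) = fun x : Fin n × Fin n => τ (sh j.1 x) := by
        funext x
        exact hστ _ (Finset.mem_image_of_mem _ (mem_univ _))
      unfold wj
      rw [h1]

end Pool.Agent.Q123.KT
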